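import Pool.Agent.Helper94.C9.FF

/-!
Project LT (MP_b8862a_ag), block C9: matrices that commute with the root vectors of level different from zero.
-/

set_option linter.unusedSectionVars false
set_option linter.unusedVariables false

open Matrix Module MH

namespace C9

namespace RD

variable {r N : ℕ} {D : RD r N}

theorem ip_add_left (x x' z : Fin r → ℤ) : D.ip (x + x') z = D.ip x z + D.ip x' z := by
  simp only [ip, Pi.add_apply, add_mul, Finset.sum_add_distrib]

theorem ip_add_right (x z z' : Fin r → ℤ) : D.ip x (z + z') = D.ip x z + D.ip x z' := by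
  simp only [ip, Pi.add_apply, mul_add, Finset.sum_add_distrib]

theorem ip_sub_left (x x' z : Fin r → ℤ) : D.ip (x - x') z = D.ip x z - D.ip x' z := by
  simp only [ip, Pi.sub_apply, sub_mul, Finset.sum_sub_distrib]

theorem ip_neg_left (x z : Fin r → ℤ) : D.ip (-x) z = -D.ip x z := by
  simp only [ip, Pi.neg_apply, neg_mul, Finset.sum_neg_distrib]

theorem ip_neg_right (x z : Fin r → ℤ) : D.ip x (-z) = -D.ip x z := by
  simp only [ip, Pi.neg_apply, mul_neg, Finset.sum_neg_distrib]

theorem Ok.ip_comm (h : D.Ok) (x z : Fin r → ℤ) : D.ip x z = D.ip z x := by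
  have hG : ∀ i j, D.G i j = D.G j i := fun i j => by rw [h.gb, h.gb, add_comm]
  simp only [ip]
  rw [Finset.sum_comm]
  refine Finset.sum_congr rfl fun i _ => Finset.sum_congr rfl fun j _ => ?_
  rw [hG]
  ring

theorem ip_single (j : Fin r) (z : Fin r → ℤ) : D.ip (Pi.single j 1) z = ∑ k, D.G j k * z k := by
  rw [ip, Finset.sum_eq_single j]
  · refine Finset.sum_congr rfl fun k _ => ?_
    rw [Pi.single_eq_same, one_mul]
  · intro i _ hi
    refine Finset.sum_eq_zero fun k _ => ?_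
    rw [Pi.single_eq_of_ne hi, zero_mul, zero_mul]
  · intro hj
    exact absurd (Finset.mem_univ _) hj

/-- the inner product in the coordinates of the simple roots -/
theorem ip_eq_sum (x z : Fin r → ℤ) : D.ip x z = ∑ k, x k * D.ip (Pi.single k 1) z := by
  simp only [ip_single, Finset.mul_sum]
  simp only [ip, mul_assoc]

/-- a vector orthogonal to all simple roots is zero -/
theorem Ok.eq_zero (h : D.Ok) {z : Fin r → ℤ} (hz : ∀ j, D.ip (Pi.single j 1) z = 0) : z = 0 := by
  have hG : ∀ i j, D.G i j = D.G j i := fun i j => by rw [h.gb, h.gb, add_comm]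
  have h1 : Matrix.vecMul z D.G = 0 := by
    funext j
    have h2 := hz j
    rw [ip_single] at h2
    rw [Pi.zero_apply, ← h2, Matrix.vecMul, dotProduct]
    refine Finset.sum_congr rfl fun k _ => ?_
    rw [hG, mul_comm]
  have h2 : Matrix.vecMul (Matrix.vecMul z D.G) D.Gi = D.d • z := by
    rw [Matrix.vecMul_vecMul, h.gi, Matrix.vecMul_smul, Matrix.vecMul_one]
  rw [h1, Matrix.zero_vecMul] at h2
  funext j
  have h3 := congrFun h2 j
  rw [Pi.zero_apply, Pi.smul_apply, smul_eq_mul] at h3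
  exact (mul_eq_zero.1 h3.symm).resolve_left h.d0

theorem lev_add (x z : Fin r → ℤ) : D.lev (x + z) = D.lev x + D.lev z := by
  simp only [lev, Pi.add_apply, mul_add, Finset.sum_add_distrib]

theorem lev_neg (x : Fin r → ℤ) : D.lev (-x) = -D.lev x := by
  simp only [lev, Pi.neg_apply, mul_neg, Finset.sum_neg_distrib]

theorem lev_single (j : Fin r) : D.lev (Pi.single j 1) = D.y j := by
  rw [lev, Finset.sum_eq_single j]
  · rw [Pi.single_eq_same, mul_one]
  · intro i _ hi
    rw [Pi.single_eq_of_ne hi, mul_zero]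
  · intro hj
    exact absurd (Finset.mem_univ _) hj

theorem Ok.v_ne (h : D.Ok) (a : Fin N) : D.v a ≠ 0 := by
  intro h0
  have h1 := h.two a
  rw [h0] at h1
  simp [ip] at h1

/-- the diagonal entries of the elements of the Cartan subalgebra -/
def dg (D : RD r N) (x : Fin r → ℤ) : Fin r ⊕ Fin N → ℂ := Sum.elim (fun _ => 0) fun b => ((D.ip x (D.v b) : ℤ) : ℂ)

theorem toC_L (a b c : Fin r ⊕ Fin N) : toC (D.L a) c b = ((D.st a b c : ℤ) : ℂ) := by
  simp [toC, L]

/-- the bracket of opposite root vectors -/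
theorem Ok.opp (h : D.Ok) (hjac : ∀ a b : Fin r ⊕ Fin N, D.L a * D.L b - D.L b * D.L a = ∑ c, D.L a c b • D.L c)
    {a a' : Fin N} (ha : D.v a' = -D.v a) :
    toC (D.L (.inr a)) * toC (D.L (.inr a')) - toC (D.L (.inr a')) * toC (D.L (.inr a)) = -diagonal (D.dg (D.v a)) := by
  have h1 := congrArg toC (hjac (.inr a) (.inr a'))
  have e1 : toC (D.L (.inr a) * D.L (.inr a') - D.L (.inr a') * D.L (.inr a)) =
      toC (D.L (.inr a)) * toC (D.L (.inr a')) - toC (D.L (.inr a')) * toC (D.L (.inr a)) := by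
    rw [← toC_mul94, ← toC_mul94]
    ext i j
    simp only [toC, Matrix.map_apply, Matrix.sub_apply, map_sub]
  rw [e1] at h1
  rw [h1, toC_sum94]
  ext i j
  rw [Matrix.sum_apply, Fintype.sum_sum_type]
  have e2 : ∀ c : Fin N, toC (D.L (.inr a) (.inr c) (.inr a') • D.L (.inr c)) i j = 0 := by
    intro c
    have h3 : D.L (.inr a) (.inr c) (.inr a') = 0 := by
      simp only [L, Matrix.of_apply, st, ha]
      rw [if_neg]
      · norm_num
      · rw [add_neg_cancel]
        exact h.v_ne c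
    rw [h3, zero_smul]
    simp [toC]
  simp only [e2, Finset.sum_const_zero, add_zero]
  have e3 : ∀ k : Fin r, toC (D.L (.inr a) (.inl k) (.inr a') • D.L (.inl k)) i j =
      -((D.v a k : ℤ) : ℂ) * ((D.st (.inl k) j i : ℤ) : ℂ) := by
    intro k
    rw [toC_smul94, Matrix.smul_apply, toC_L, smul_eq_mul]
    congr 1
    simp only [L, Matrix.of_apply, st, ha, if_true]
    push_cast
    rfl
  simp only [e3]
  rw [Matrix.neg_apply, Matrix.diagonal_apply]
  rcases j with j | j
  · have e4 : ∀ k : Fin r, ((D.st (.inl k) (.inl j) i : ℤ) : ℂ) = 0 := fun k => by simp [st]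
    simp only [e4, mul_zero, Finset.sum_const_zero]
    by_cases hij : i = Sum.inl j
    · rw [if_pos hij, hij]
      simp [dg]
    · rw [if_neg hij, neg_zero]
  · by_cases hij : i = Sum.inr j
    · have e4 : ∀ k : Fin r, ((D.st (.inl k) (.inr j) i : ℤ) : ℂ) = ((D.ip (Pi.single k 1) (D.v j) : ℤ) : ℂ) :=
        fun k => by simp only [st, hij, if_true]
      simp only [e4]
      rw [if_pos hij, hij]
      simp only [dg, Sum.elim_inr]
      rw [ip_eq_sum]
      push_cast
      rw [← Finset.sum_neg_distrib]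
      refine Finset.sum_congr rfl fun k _ => ?_
      ring
    · have e4 : ∀ k : Fin r, ((D.st (.inl k) (.inr j) i : ℤ) : ℂ) = 0 := fun k => by simp only [st, if_neg hij]; norm_num
      simp only [e4, mul_zero, Finset.sum_const_zero]
      rw [if_neg hij, neg_zero]

/-- BLOCK COM: matrices that commute with the root vectors of level different from zero are scalars -/
theorem Ok.scalar_of_jac (h : D.Ok)
    (hjac : ∀ a b : Fin r ⊕ Fin N, D.L a * D.L b - D.L b * D.L a = ∑ c, D.L a c b • D.L c)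
    (h1 : ∀ a, D.lev (D.v a) = -1 ∨ D.lev (D.v a) = 0 ∨ D.lev (D.v a) = 1)
    (c1 : ∀ j, D.y j = 0 → ∃ a b, D.lev (D.v a) = 1 ∧ D.v b = D.v a + Pi.single j 1)
    (c2 : ∀ a b, D.lev (D.v a) = 1 → D.lev (D.v b) = 1 →
      ∃ c, D.lev (D.v c) = 1 ∧ D.ip (D.v a) (D.v c) ≠ 0 ∧ D.ip (D.v c) (D.v b) ≠ 0)
    (c3 : ∀ c, D.lev (D.v c) = 0 → ∃ a, D.lev (D.v a) = 1 ∧ D.ip (D.v a) (D.v c) = -1)
    (c4 : ∃ a, D.lev (D.v a) = 1)
    (X : Matrix (Fin r ⊕ Fin N) (Fin r ⊕ Fin N) ℂ)
    (hX : ∀ a, D.lev (D.v a) ≠ 0 → X * toC (D.L (.inr a)) = toC (D.L (.inr a)) * X) :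
    ∃ b : ℂ, X = b • (1 : Matrix (Fin r ⊕ Fin N) (Fin r ⊕ Fin N) ℂ) := by
  -- the linear relations
  have hlin : ∀ (P : (Fin r → ℤ) → Prop), (∀ x z, P x → P z → P (z - x)) →
      (∀ a, D.lev (D.v a) ≠ 0 → P (D.v a)) → ∀ j, P (Pi.single j 1) := by
    intro P hs hP j
    by_cases hy : D.y j = 0
    · obtain ⟨a, b, ha, hb⟩ := c1 j hy
      have h2 : D.lev (D.v b) = 1 := by rw [hb, lev_add, lev_single, hy, ha, add_zero]
      have h3 := hs _ _ (hP a (by rw [ha]; norm_num)) (hP b (by rw [h2]; norm_num))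
      rwa [hb, add_sub_cancel_left] at h3
    · obtain ⟨a, ha⟩ := h.simp j
      rw [← ha]
      exact hP a (by rw [ha, lev_single]; exact hy)
  -- commutation with the Cartan subalgebra
  have hd : ∀ a, D.lev (D.v a) ≠ 0 → ∀ p q, X p q * D.dg (D.v a) q = D.dg (D.v a) p * X p q := by
    intro a ha p q
    obtain ⟨a', ha'⟩ := h.neg a
    have hl' : D.lev (D.v a') ≠ 0 := by rw [ha', lev_neg]; exact neg_ne_zero.2 ha
    have e1 := hX a ha
    have e2 := hX a' hl'
    have e3 := h.opp hjac ha'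
    have e4 : X * (-diagonal (D.dg (D.v a))) = (-diagonal (D.dg (D.v a))) * X := by
      rw [← e3, mul_sub, sub_mul]
      congr 1
      · rw [← mul_assoc, e1, mul_assoc, e2, mul_assoc]
      · rw [← mul_assoc, e2, mul_assoc, e1, mul_assoc]
    rw [mul_neg, neg_mul, neg_inj] at e4
    have e5 := congrFun (congrFun e4 p) q
    rwa [Matrix.mul_diagonal, Matrix.diagonal_mul] at e5
  have hd' : ∀ p q, X p q ≠ 0 → ∀ j, D.dg (Pi.single j 1) q = D.dg (Pi.single j 1) p := by
    intro p q hpq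
    refine hlin (fun x => D.dg x q = D.dg x p) ?_ ?_
    · intro x z hx hz
      have e1 : ∀ t : Fin r ⊕ Fin N, D.dg (z - x) t = D.dg z t - D.dg x t := by
        intro t
        rcases t with t | t
        · simp [dg]
        · simp only [dg, Sum.elim_inr, ip_sub_left]
          push_cast
          rfl
      rw [e1, e1, hx, hz]
    · intro a ha
      have e1 := hd a ha p q
      rw [mul_comm] at e1
      exact mul_right_cancel₀ hpq e1
  have b1 : ∀ (k : Fin r) (b : Fin N), X (.inl k) (.inr b) = 0 := by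
    intro k b
    by_contra hne
    apply h.v_ne b
    refine h.eq_zero fun j => ?_
    have := hd' _ _ hne j
    simp only [dg, Sum.elim_inr, Sum.elim_inl] at this
    exact_mod_cast this
  have b2 : ∀ (k : Fin r) (b : Fin N), X (.inr b) (.inl k) = 0 := by
    intro k b
    by_contra hne
    apply h.v_ne b
    refine h.eq_zero fun j => ?_
    have := hd' _ _ hne j
    simp only [dg, Sum.elim_inr, Sum.elim_inl] at this
    exact_mod_cast this.symm
  have b3 : ∀ b c : Fin N, c ≠ b → X (.inr c) (.inr b) = 0 := by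
    intro b c hcb
    by_contra hne
    apply hcb
    apply h.inj
    rw [← sub_eq_zero]
    refine h.eq_zero fun j => ?_
    have := hd' _ _ hne j
    simp only [dg, Sum.elim_inr] at this
    have h2 : D.ip (Pi.single j 1) (D.v b) = D.ip (Pi.single j 1) (D.v c) := by exact_mod_cast this
    rw [sub_eq_add_neg, ip_add_right, ip_neg_right, h2, add_neg_cancel]
  -- the matrix on the Cartan subalgebra
  have hY : ∀ a a' : Fin N, D.lev (D.v a) ≠ 0 → D.v a' = -D.v a → ∀ k,
      ∑ j, X (.inl k) (.inl j) * ((D.v a j : ℤ) : ℂ) = X (.inr a') (.inr a') * ((D.v a k : ℤ) : ℂ) := by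
    intro a a' ha ha' k
    have e1 := congrFun (congrFun (hX a ha) (.inl k)) (.inr a')
    rw [Matrix.mul_apply, Matrix.mul_apply, Fintype.sum_sum_type, Fintype.sum_sum_type] at e1
    simp only [b1, zero_mul, mul_zero, Finset.sum_const_zero, add_zero, zero_add] at e1
    rw [Finset.sum_eq_single a' (fun c _ hc => by rw [b3 _ _ hc, mul_zero])
      (fun hh => absurd (Finset.mem_univ _) hh)] at e1
    simp only [toC_L, st, ha', if_true] at e1
    have e2 : ∑ j, X (.inl k) (.inl j) * ((-D.v a j : ℤ) : ℂ) = -∑ j, X (.inl k) (.inl j) * ((D.v a j : ℤ) : ℂ) := by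
      rw [← Finset.sum_neg_distrib]
      refine Finset.sum_congr rfl fun j _ => ?_
      push_cast
      ring
    rw [e2] at e1
    push_cast at e1
    linear_combination -e1
  have hneg : ∀ a a' : Fin N, D.lev (D.v a) ≠ 0 → D.v a' = -D.v a → X (.inr a') (.inr a') = X (.inr a) (.inr a) := by
    intro a a' ha ha'
    have hl' : D.lev (D.v a') ≠ 0 := by rw [ha', lev_neg]; exact neg_ne_zero.2 ha
    have ha2 : D.v a = -D.v a' := by rw [ha', neg_neg]
    obtain ⟨k, hk⟩ : ∃ k, D.v a k ≠ 0 := by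
      by_contra hcon
      push Not at hcon
      exact h.v_ne a (funext hcon)
    have e1 := hY a a' ha ha' k
    have e2 := hY a' a hl' ha2 k
    have e3 : ∑ j, X (.inl k) (.inl j) * ((D.v a' j : ℤ) : ℂ) = -∑ j, X (.inl k) (.inl j) * ((D.v a j : ℤ) : ℂ) := by
      rw [← Finset.sum_neg_distrib]
      refine Finset.sum_congr rfl fun j _ => ?_
      rw [ha', Pi.neg_apply]
      push_cast
      ring
    rw [e3, e1] at e2
    have e4 : ((D.v a' k : ℤ) : ℂ) = -((D.v a k : ℤ) : ℂ) := by
      rw [ha', Pi.neg_apply]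
      push_cast
      rfl
    rw [e4] at e2
    have hk' : ((D.v a k : ℤ) : ℂ) ≠ 0 := by exact_mod_cast hk
    exact mul_right_cancel₀ hk' (by linear_combination -e2)
  have hY' : ∀ a : Fin N, D.lev (D.v a) ≠ 0 → ∀ k,
      ∑ j, X (.inl k) (.inl j) * ((D.v a j : ℤ) : ℂ) = X (.inr a) (.inr a) * ((D.v a k : ℤ) : ℂ) := by
    intro a ha k
    obtain ⟨a', ha'⟩ := h.neg a
    rw [hY a a' ha ha' k, hneg a a' ha ha']
  -- the functionals
  have hZ : ∀ a : Fin N, D.lev (D.v a) ≠ 0 → ∀ j, ∑ k, ((D.ip (Pi.single k 1) (D.v a) : ℤ) : ℂ) * X (.inl k) (.inl j) =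
      X (.inr a) (.inr a) * ((D.ip (Pi.single j 1) (D.v a) : ℤ) : ℂ) := by
    intro a ha j
    have e1 := congrFun (congrFun (hX a ha) (.inr a)) (.inl j)
    rw [Matrix.mul_apply, Matrix.mul_apply, Fintype.sum_sum_type, Fintype.sum_sum_type] at e1
    simp only [b2, zero_mul, mul_zero, Finset.sum_const_zero, add_zero, zero_add] at e1
    rw [Finset.sum_eq_single a (fun c _ hc => by rw [b3 _ _ (Ne.symm hc), zero_mul])
      (fun hh => absurd (Finset.mem_univ _) hh)] at e1
    simp only [toC_L, st, if_true] at e1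
    have e2 : ∑ k, ((-D.ip (Pi.single k 1) (D.v a) : ℤ) : ℂ) * X (.inl k) (.inl j) =
        -∑ k, ((D.ip (Pi.single k 1) (D.v a) : ℤ) : ℂ) * X (.inl k) (.inl j) := by
      rw [← Finset.sum_neg_distrib]
      refine Finset.sum_congr rfl fun j _ => ?_
      push_cast
      ring
    rw [e2] at e1
    push_cast at e1
    linear_combination e1
  have hab : ∀ a b : Fin N, D.lev (D.v a) ≠ 0 → D.lev (D.v b) ≠ 0 → D.ip (D.v a) (D.v b) ≠ 0 →
      X (.inr a) (.inr a) = X (.inr b) (.inr b) := by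
    intro a b ha hb hne
    have e1 : ∑ j, (∑ k, ((D.ip (Pi.single k 1) (D.v b) : ℤ) : ℂ) * X (.inl k) (.inl j)) * ((D.v a j : ℤ) : ℂ) =
        ∑ k, ((D.ip (Pi.single k 1) (D.v b) : ℤ) : ℂ) * ∑ j, X (.inl k) (.inl j) * ((D.v a j : ℤ) : ℂ) := by
      simp only [Finset.sum_mul, Finset.mul_sum]
      rw [Finset.sum_comm]
      refine Finset.sum_congr rfl fun k _ => Finset.sum_congr rfl fun j _ => ?_
      ring
    simp only [hZ b hb, hY' a ha] at e1
    have e2 : ∑ k, ((D.ip (Pi.single k 1) (D.v b) : ℤ) : ℂ) * ((D.v a k : ℤ) : ℂ) = ((D.ip (D.v a) (D.v b) : ℤ) : ℂ) := by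
      rw [ip_eq_sum]
      push_cast
      refine Finset.sum_congr rfl fun k _ => ?_
      ring
    have e3 : ∑ j, X (.inr b) (.inr b) * ((D.ip (Pi.single j 1) (D.v b) : ℤ) : ℂ) * ((D.v a j : ℤ) : ℂ) =
        X (.inr b) (.inr b) * ((D.ip (D.v a) (D.v b) : ℤ) : ℂ) := by
      rw [← e2, Finset.mul_sum]
      refine Finset.sum_congr rfl fun k _ => ?_
      ring
    have e4 : ∑ k, ((D.ip (Pi.single k 1) (D.v b) : ℤ) : ℂ) * (X (.inr a) (.inr a) * ((D.v a k : ℤ) : ℂ)) =
        X (.inr a) (.inr a) * ((D.ip (D.v a) (D.v b) : ℤ) : ℂ) := by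
      rw [← e2, Finset.mul_sum]
      refine Finset.sum_congr rfl fun k _ => ?_
      ring
    rw [e3, e4] at e1
    have hne' : ((D.ip (D.v a) (D.v b) : ℤ) : ℂ) ≠ 0 := by exact_mod_cast hne
    exact (mul_right_cancel₀ hne' e1).symm
  obtain ⟨a0, ha0⟩ := c4
  obtain ⟨l, hl⟩ : ∃ l, l = X (.inr a0) (.inr a0) := ⟨_, rfl⟩
  have hl1 : ∀ a, D.lev (D.v a) = 1 → X (.inr a) (.inr a) = l := by
    intro a ha
    obtain ⟨c, hc, hac, hc0⟩ := c2 a a0 ha ha0
    rw [hl, hab a c (by rw [ha]; norm_num) (by rw [hc]; norm_num) hac,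
      hab c a0 (by rw [hc]; norm_num) (by rw [ha0]; norm_num) hc0]
  have hlm : ∀ a, D.lev (D.v a) ≠ 0 → X (.inr a) (.inr a) = l := by
    intro a ha
    rcases h1 a with h2 | h2 | h2
    · obtain ⟨a', ha'⟩ := h.neg a
      rw [← hneg a a' ha ha']
      exact hl1 a' (by rw [ha', lev_neg, h2]; norm_num)
    · exact absurd h2 ha
    · exact hl1 a h2
  have hall : ∀ a, X (.inr a) (.inr a) = l := by
    intro c
    by_cases hc : D.lev (D.v c) = 0
    · obtain ⟨a, ha, hac⟩ := c3 c hc
      obtain ⟨d, hd⟩ := h.add a c hac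
      have hld : D.lev (D.v d) = 1 := by rw [hd, lev_add, ha, hc, add_zero]
      have e1 := congrFun (congrFun (hX a (by rw [ha]; norm_num)) (.inr d)) (.inr c)
      rw [Matrix.mul_apply, Matrix.mul_apply, Fintype.sum_sum_type, Fintype.sum_sum_type] at e1
      simp only [b1, b2, zero_mul, mul_zero, Finset.sum_const_zero, zero_add] at e1
      rw [Finset.sum_eq_single d (fun c _ hc => by rw [b3 _ _ (Ne.symm hc), zero_mul])
        (fun hh => absurd (Finset.mem_univ _) hh), Finset.sum_eq_single c (fun c _ hc => by rw [b3 _ _ hc, mul_zero])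
        (fun hh => absurd (Finset.mem_univ _) hh)] at e1
      rw [hl1 d hld] at e1
      have hne : toC (D.L (.inr a)) (.inr d) (.inr c) ≠ 0 := by
        rw [toC_L]
        simp only [st, hd, if_true, sg]
        split_ifs <;> norm_num
      exact (mul_left_cancel₀ hne (by rw [← e1, mul_comm])).symm
    · exact hlm c hc
  refine ⟨l, ?_⟩
  have hYl : ∀ k j, X (.inl k) (.inl j) = l * (if k = j then 1 else 0) := by
    intro k j
    have e1 := hlin (fun x => ∑ j, X (.inl k) (.inl j) * ((x j : ℤ) : ℂ) = l * ((x k : ℤ) : ℂ)) (by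
      intro x z hx hz
      have e2 : ∑ j, X (.inl k) (.inl j) * (((z - x) j : ℤ) : ℂ) =
          ∑ j, X (.inl k) (.inl j) * ((z j : ℤ) : ℂ) - ∑ j, X (.inl k) (.inl j) * ((x j : ℤ) : ℂ) := by
        rw [← Finset.sum_sub_distrib]
        refine Finset.sum_congr rfl fun j _ => ?_
        rw [Pi.sub_apply]
        push_cast
        ring
      rw [e2, hx, hz, Pi.sub_apply]
      push_cast
      ring) (fun a ha => by
      rw [hY' a ha k, hlm a ha]) j
    rw [Finset.sum_eq_single j (fun i _ hi => by rw [Pi.single_eq_of_ne hi]; simp)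
      (fun hh => absurd (Finset.mem_univ _) hh), Pi.single_eq_same, Pi.single_apply] at e1
    rw [Int.cast_one, mul_one] at e1
    rw [e1]
    split_ifs <;> simp
  ext p q
  rw [Matrix.smul_apply, Matrix.one_apply, smul_eq_mul]
  rcases p with p | p <;> rcases q with q | q
  · rw [hYl]
    simp
  · rw [b1, if_neg (by simp), mul_zero]
  · rw [b2, if_neg (by simp), mul_zero]
  · by_cases hpq : p = q
    · rw [hpq, hall, if_pos rfl, mul_one]
    · rw [b3 _ _ hpq, if_neg (by simpa using hpq), mul_zero]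

end RD

end C9
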