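import Pool.Agent.Helper81.C9.Defs

/-!
Project LT (MP_b8862a_ag), block C9: the contraction with a family of matrices.
-/

set_option linter.unusedSectionVars false
set_option linter.unusedVariables false

open Matrix Module MH

namespace C9

section fam

variable {n : Type*} [Fintype n] [DecidableEq n] {m : Type*} [Fintype m] [DecidableEq m]

theorem FF_apply (M : Matrix m m ℚ) (L : m → Matrix n n ℚ) (Y : Matrix n n ℂ) :
    FF M L Y = ∑ a, ∑ b, (((M a b : ℚ) : ℂ) * (toC (L a) * Y).trace) • toC (L b) := rfl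

theorem toC_sum94 {ι : Type*} (s : Finset ι) (f : ι → Matrix n n ℚ) : toC (∑ a ∈ s, f a) = ∑ a ∈ s, toC (f a) := by
  ext i j
  simp only [toC, Matrix.map_apply, Matrix.sum_apply, map_sum]

theorem toC_smul94 (c : ℚ) (A : Matrix n n ℚ) : toC (c • A) = (c : ℂ) • toC A := by
  ext i j
  simp [toC]

theorem toC_mul94 (A B : Matrix n n ℚ) : toC (A * B) = toC A * toC B := by
  simp only [toC]
  rw [Matrix.map_mul]

theorem toC_trace94 (A : Matrix n n ℚ) : (toC A).trace = ((A.trace : ℚ) : ℂ) := by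
  simp only [toC, Matrix.trace, Matrix.diag, Matrix.map_apply]
  push_cast
  rfl

theorem toC_entry (A : Matrix n n ℚ) (i j : n) : toC A i j = ((A i j : ℚ) : ℂ) := rfl

/-- BLOCK FF1 -/
theorem FF_rat (M : Matrix m m ℚ) (L : m → Matrix n n ℚ) (A : Matrix n n ℚ) : ∃ B, FF M L (toC A) = toC B := by
  refine ⟨∑ a, ∑ b, (M a b * (L a * A).trace) • L b, ?_⟩
  rw [FF_apply, toC_sum94]
  refine Finset.sum_congr rfl fun a _ => ?_
  rw [toC_sum94]
  refine Finset.sum_congr rfl fun b _ => ?_
  rw [toC_smul94, ← toC_mul94, toC_trace94]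
  push_cast
  rfl

/-- BLOCK FF2 -/
theorem FF_br {M : Matrix m m ℚ} {L : m → Matrix n n ℚ} {X : Matrix n n ℂ} (Dt : Matrix m m ℂ)
    (h1 : ∀ a, X * toC (L a) - toC (L a) * X = ∑ c, Dt c a • toC (L c)) (h2 : Dt * toC M + toC M * Dtᵀ = 0)
    (Y : Matrix n n ℂ) : FF M L (X * Y - Y * X) = X * FF M L Y - FF M L Y * X := by
  obtain ⟨t, ht⟩ : ∃ t : m → ℂ, ∀ a, (toC (L a) * Y).trace = t a := ⟨_, fun _ => rfl⟩
  have e1 : ∀ a, (toC (L a) * (X * Y - Y * X)).trace = -∑ c, Dt c a * t c := by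
    intro a
    have e2 : (toC (L a) * (X * Y - Y * X)).trace = -((X * toC (L a) - toC (L a) * X) * Y).trace := by
      rw [Matrix.mul_sub, Matrix.trace_sub, Matrix.sub_mul, Matrix.trace_sub, ← Matrix.mul_assoc, ← Matrix.mul_assoc,
        Matrix.trace_mul_comm (toC (L a) * Y) X, Matrix.mul_assoc X]
      ring
    rw [e2, h1, Matrix.sum_mul, Matrix.trace_sum]
    congr 1
    refine Finset.sum_congr rfl fun c _ => ?_
    rw [Matrix.smul_mul, Matrix.trace_smul, ht, smul_eq_mul]
  have e3 : FF M L (X * Y - Y * X) = -∑ c, ∑ b, (t c * (Dt * toC M) c b) • toC (L b) := by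
    rw [FF_apply]
    simp only [e1]
    rw [← Finset.sum_neg_distrib]
    have e4 : ∀ c, -∑ b, (t c * (Dt * toC M) c b) • toC (L b) = ∑ a, ∑ b, (((M a b : ℚ) : ℂ) * -(Dt c a * t c)) • toC (L b) := by
      intro c
      rw [Finset.sum_comm, ← Finset.sum_neg_distrib]
      refine Finset.sum_congr rfl fun b _ => ?_
      rw [← Finset.sum_smul, ← neg_smul]
      congr 1
      rw [Matrix.mul_apply, Finset.mul_sum, ← Finset.sum_neg_distrib]
      refine Finset.sum_congr rfl fun a _ => ?_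
      rw [toC_entry]
      ring
    simp only [e4]
    conv_rhs => rw [Finset.sum_comm]
    refine Finset.sum_congr rfl fun a _ => ?_
    conv_rhs => rw [Finset.sum_comm]
    refine Finset.sum_congr rfl fun b _ => ?_
    rw [← Finset.sum_smul]
    congr 1
    rw [← Finset.mul_sum, Finset.sum_neg_distrib]
  have e5 : X * FF M L Y - FF M L Y * X = ∑ a, ∑ c, (t a * (toC M * Dtᵀ) a c) • toC (L c) := by
    rw [FF_apply, Finset.mul_sum, Finset.sum_mul, ← Finset.sum_sub_distrib]
    refine Finset.sum_congr rfl fun a _ => ?_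
    rw [Finset.mul_sum, Finset.sum_mul, ← Finset.sum_sub_distrib]
    have e6 : ∀ b, X * (((M a b : ℚ) : ℂ) * (toC (L a) * Y).trace) • toC (L b) -
        (((M a b : ℚ) : ℂ) * (toC (L a) * Y).trace) • toC (L b) * X =
        ∑ c, ((((M a b : ℚ) : ℂ) * t a) * Dt c b) • toC (L c) := by
      intro b
      rw [Matrix.mul_smul, Matrix.smul_mul, ← smul_sub, h1, ht, Finset.smul_sum]
      refine Finset.sum_congr rfl fun c _ => ?_
      rw [smul_smul]
    simp only [e6]
    rw [Finset.sum_comm]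
    refine Finset.sum_congr rfl fun c _ => ?_
    rw [← Finset.sum_smul]
    congr 1
    rw [Matrix.mul_apply, Finset.mul_sum]
    refine Finset.sum_congr rfl fun b _ => ?_
    rw [toC_entry, Matrix.transpose_apply]
    ring
  have e7 : toC M * Dtᵀ = -(Dt * toC M) := (neg_eq_of_add_eq_zero_right h2).symm
  rw [e3, e5, e7, ← Finset.sum_neg_distrib]
  refine Finset.sum_congr rfl fun a _ => ?_
  rw [← Finset.sum_neg_distrib]
  refine Finset.sum_congr rfl fun b _ => ?_
  rw [Matrix.neg_apply, mul_neg, neg_smul]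

/-- BLOCK FF3 -/
theorem FF_conj {M : Matrix m m ℚ} {L : m → Matrix n n ℚ} {S : Matrix n n ℚ} (hS : S * S = 1) (St : Matrix m m ℚ)
    (h1 : ∀ a, S * L a * S = ∑ c, St c a • L c) (h2 : St * M = M * Stᵀ) (h3 : St * St = 1) (Y : Matrix n n ℂ) :
    FF M L (toC S * Y * toC S) = toC S * FF M L Y * toC S := by
  obtain ⟨t, ht⟩ : ∃ t : m → ℂ, ∀ a, (toC (L a) * Y).trace = t a := ⟨_, fun _ => rfl⟩
  have h1' : ∀ a, toC S * toC (L a) * toC S = ∑ c, ((St c a : ℚ) : ℂ) • toC (L c) := by
    intro a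
    rw [← toC_mul94, ← toC_mul94, h1, toC_sum94]
    exact Finset.sum_congr rfl fun c _ => toC_smul94 _ _
  have e1 : ∀ a, (toC (L a) * (toC S * Y * toC S)).trace = ∑ c, ((St c a : ℚ) : ℂ) * t c := by
    intro a
    have e2 : (toC (L a) * (toC S * Y * toC S)).trace = ((toC S * toC (L a) * toC S) * Y).trace := by
      rw [← Matrix.mul_assoc, Matrix.trace_mul_comm _ (toC S)]
      simp only [Matrix.mul_assoc]
    rw [e2, h1', Matrix.sum_mul, Matrix.trace_sum]
    refine Finset.sum_congr rfl fun c _ => ?_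
    rw [Matrix.smul_mul, Matrix.trace_smul, ht, smul_eq_mul]
  have e3 : FF M L (toC S * Y * toC S) = ∑ c, ∑ b, (t c * ((St * M) c b : ℚ)) • toC (L b) := by
    rw [FF_apply]
    simp only [e1]
    have e4 : ∀ c, ∑ b, (t c * (((St * M) c b : ℚ) : ℂ)) • toC (L b) =
        ∑ a, ∑ b, (((M a b : ℚ) : ℂ) * (((St c a : ℚ) : ℂ) * t c)) • toC (L b) := by
      intro c
      rw [Finset.sum_comm]
      refine Finset.sum_congr rfl fun b _ => ?_
      rw [← Finset.sum_smul]
      congr 1
      rw [Matrix.mul_apply]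
      push_cast
      rw [Finset.mul_sum]
      refine Finset.sum_congr rfl fun a _ => ?_
      ring
    simp only [e4]
    conv_rhs => rw [Finset.sum_comm]
    refine Finset.sum_congr rfl fun a _ => ?_
    conv_rhs => rw [Finset.sum_comm]
    refine Finset.sum_congr rfl fun b _ => ?_
    rw [← Finset.sum_smul]
    congr 1
    rw [← Finset.mul_sum]
  have e5 : toC S * FF M L Y * toC S = ∑ a, ∑ c, (t a * ((M * Stᵀ) a c : ℚ)) • toC (L c) := by
    rw [FF_apply, Finset.mul_sum, Finset.sum_mul]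
    refine Finset.sum_congr rfl fun a _ => ?_
    rw [Finset.mul_sum, Finset.sum_mul]
    have e6 : ∀ b, toC S * (((M a b : ℚ) : ℂ) * (toC (L a) * Y).trace) • toC (L b) * toC S =
        ∑ c, ((((M a b : ℚ) : ℂ) * t a) * ((St c b : ℚ) : ℂ)) • toC (L c) := by
      intro b
      rw [Matrix.mul_smul, Matrix.smul_mul, h1', ht, Finset.smul_sum]
      refine Finset.sum_congr rfl fun c _ => ?_
      rw [smul_smul]
    simp only [e6]
    rw [Finset.sum_comm]
    refine Finset.sum_congr rfl fun c _ => ?_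
    rw [← Finset.sum_smul]
    congr 1
    rw [Matrix.mul_apply]
    push_cast
    rw [Finset.mul_sum]
    refine Finset.sum_congr rfl fun b _ => ?_
    rw [Matrix.transpose_apply]
    ring
  rw [e3, e5, h2]

/-- BLOCK FF4 -/
theorem FF_rank (M : Matrix m m ℚ) (L : m → Matrix n n ℚ) : finrank ℂ (LinearMap.range (FF M L)) ≤ Fintype.card m := by
  classical
  have h1 : LinearMap.range (FF M L) ≤ Submodule.span ℂ (Set.range fun b : m => toC (L b)) := by
    rintro _ ⟨Y, rfl⟩
    rw [FF_apply]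
    refine Submodule.sum_mem _ fun a _ => Submodule.sum_mem _ fun b _ => ?_
    exact Submodule.smul_mem _ _ (Submodule.subset_span ⟨b, rfl⟩)
  exact (Submodule.finrank_mono h1).trans (finrank_range_le_card _)

end fam

end C9
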